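import Pool.Agent.Helper40.MR.Defs

set_option autoImplicit false

open Finset MeasureTheory
open scoped BigOperators Nat

namespace Pool.Agent.Helper40.MR

theorem hm1_nit (n : ℕ) (t r : ℝ) : nit n (t - r) = xiu n (r - t) := by
  unfold nit xiu
  congr 1
  push_cast
  ring

theorem hm1_xiu_norm (x u : ℝ) : ‖xiu x u‖ = 1 := by
  unfold xiu
  exact Complex.norm_exp_ofReal_mul_I _

theorem hm1_nit_norm (n : ℕ) (t : ℝ) : ‖nit n t‖ = 1 := by
  have h := hm1_nit n t 0
  rw [sub_zero] at h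
  rw [h, hm1_xiu_norm]

theorem hm1_Fh (u : ℝ) : |Fh u| ≤ 5 * (1 + u ^ 2)⁻¹ := by
  have hpos : 0 < 1 + u ^ 2 := by positivity
  unfold Fh
  split_ifs with h
  · subst h; norm_num
  · have hu : 0 < u ^ 2 := by positivity
    have h1 : 0 ≤ 1 - Real.cos (4 * u) := by linarith [Real.cos_le_one (4 * u)]
    have h2 : 1 - Real.cos (4 * u) ≤ 2 := by linarith [Real.neg_one_le_cos (4 * u)]
    have h3 : 1 - Real.cos (4 * u) ≤ 8 * u ^ 2 := by
      have := Real.one_sub_sq_div_two_le_cos (x := 4 * u)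
      nlinarith
    rw [abs_of_nonneg (div_nonneg h1 (by positivity)), div_le_iff₀ (by positivity)]
    rw [mul_assoc, ← div_eq_inv_mul, ← mul_div_assoc, le_div_iff₀ hpos]
    by_cases hc : u ^ 2 ≤ 1 / 4
    · nlinarith
    · push Not at hc
      nlinarith

theorem hm1_tri {M : ℝ} (hM : 1 ≤ M) {n : ℕ} (hn : n ∈ IocN M (2 * M)) :
    1 / 2 ≤ tri (Real.log (n / M)) ∧ M ≤ n ∧ (n : ℝ) ≤ 2 * M := by
  unfold IocN at hn
  rw [Finset.mem_Ioc] at hn
  have h1 : M < n := (Nat.floor_lt (by linarith)).mp hn.1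
  have h2 : (n : ℝ) ≤ 2 * M := (Nat.le_floor_iff (by linarith)).mp hn.2
  refine ⟨?_, h1.le, h2⟩
  have hM0 : 0 < M := by linarith
  have h3 : 1 ≤ (n : ℝ) / M := by rw [le_div_iff₀ hM0]; linarith
  have h4 : (n : ℝ) / M ≤ 2 := by rw [div_le_iff₀ hM0]; linarith
  have h5 : 0 ≤ Real.log (n / M) := Real.log_nonneg h3
  have h6 : Real.log (n / M) ≤ 1 := by
    have := Real.log_le_log (by linarith) h4
    have h7 := Real.log_two_lt_d9
    linarith
  unfold tri
  rw [abs_of_nonneg h5]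
  refine le_trans ?_ (le_max_right _ _)
  linarith

theorem hm1_card {M : ℝ} (hM : 1 ≤ M) : ((IocN M (2 * M)).card : ℝ) ≤ 2 * M := by
  unfold IocN
  rw [Nat.card_Ioc]
  have h1 : (⌊M⌋₊ : ℝ) > M - 1 := by
    have := Nat.lt_floor_add_one M
    linarith
  have h2 : (⌊2 * M⌋₊ : ℝ) ≤ 2 * M := Nat.floor_le (by linarith)
  have h3 : ⌊M⌋₊ ≤ ⌊2 * M⌋₊ := Nat.floor_mono (by linarith)
  rw [Nat.cast_sub h3]
  linarith

theorem hm1_vol {U : Set ℝ} {T : ℝ} (hT : 0 ≤ T) (hU : U ⊆ Set.Icc (-T) T) :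
    volume U < ⊤ ∧ (volume U).toReal ≤ 2 * T := by
  have h1 : volume U ≤ volume (Set.Icc (-T) T) := measure_mono hU
  rw [Real.volume_Icc] at h1
  have h2 : volume U < ⊤ := lt_of_le_of_lt h1 ENNReal.ofReal_lt_top
  refine ⟨h2, ?_⟩
  have h3 := ENNReal.toReal_mono ENNReal.ofReal_ne_top h1
  rw [ENNReal.toReal_ofReal (by linarith)] at h3
  linarith

/-- trivial bound -/
theorem hm1_triv {M : ℝ} (hM : 1 ≤ M) {b : ℕ → ℂ} (hb : ∀ n, ‖b n‖ ≤ 1) (t : ℝ) :
    ‖DP (IocN M (2 * M)) b t‖ ≤ 2 := by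
  unfold DP
  refine le_trans (norm_sum_le _ _) ?_
  have h1 : ∀ n ∈ IocN M (2 * M), ‖b n / n * nit n t‖ ≤ 1 / M := by
    intro n hn
    obtain ⟨_, h2, _⟩ := hm1_tri hM hn
    rw [norm_mul, hm1_nit_norm, mul_one, norm_div, Complex.norm_natCast]
    exact div_le_div₀ (by norm_num) (hb n) (by linarith) h2
  refine le_trans (Finset.sum_le_sum h1) ?_
  rw [Finset.sum_const, nsmul_eq_mul, mul_one_div, div_le_iff₀ (by linarith)]
  exact hm1_card hM

theorem hm1_kernel {U : Set ℝ} {C δ M : ℝ} (hUf : volume U < ⊤)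
    (hMU : MeasurableSet U) (t : ℝ)
    (hC : ∀ r ∈ U, ‖Ksum M (r - t) - xiu M (r - t) * (Fh (r - t) : ℂ)‖ ≤ C * δ) :
    ∫ r in U, ‖Ksum M (r - t)‖ ≤ 5 * Real.pi + C * δ * (volume U).toReal := by
  have hi1 : Integrable (fun r : ℝ => 5 * (1 + (r - t) ^ 2)⁻¹) := by
    have := (integrable_inv_one_add_sq.comp_sub_right t).const_mul 5
    exact this
  have hi1' : IntegrableOn (fun r : ℝ => 5 * (1 + (r - t) ^ 2)⁻¹) U := hi1.integrableOn
  have hi2 : IntegrableOn (fun _ : ℝ => C * δ) U := by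
    exact integrableOn_const hUf.ne
  have h1 : ∫ r in U, ‖Ksum M (r - t)‖ ≤
      ∫ r in U, (5 * (1 + (r - t) ^ 2)⁻¹ + C * δ) := by
    refine integral_mono_of_nonneg (Filter.Eventually.of_forall fun r => norm_nonneg _)
      (hi1'.add hi2) ?_
    rw [Filter.EventuallyLE, ae_restrict_iff' hMU]
    refine Filter.Eventually.of_forall fun r hr => ?_
    have h2 : ‖xiu M (r - t) * (Fh (r - t) : ℂ)‖ ≤ 5 * (1 + (r - t) ^ 2)⁻¹ := by
      rw [norm_mul, hm1_xiu_norm, one_mul, Complex.norm_real]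
      exact hm1_Fh _
    have h3 := hC r hr
    have h4 : ‖Ksum M (r - t)‖ ≤ ‖Ksum M (r - t) - xiu M (r - t) * (Fh (r - t) : ℂ)‖ +
        ‖xiu M (r - t) * (Fh (r - t) : ℂ)‖ := by
      have := norm_add_le (Ksum M (r - t) - xiu M (r - t) * (Fh (r - t) : ℂ))
        (xiu M (r - t) * (Fh (r - t) : ℂ))
      rwa [sub_add_cancel] at this
    show ‖Ksum M (r - t)‖ ≤ 5 * (1 + (r - t) ^ 2)⁻¹ + C * δ
    linarith
  refine le_trans h1 ?_
  rw [integral_add hi1' hi2]
  have h5 : ∫ r in U, 5 * (1 + (r - t) ^ 2)⁻¹ ≤ 5 * Real.pi := by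
    have h6 : ∫ r in U, 5 * (1 + (r - t) ^ 2)⁻¹ ≤ ∫ r : ℝ, 5 * (1 + (r - t) ^ 2)⁻¹ :=
      setIntegral_le_integral hi1 (Filter.Eventually.of_forall fun r => by positivity)
    have h7 : ∫ r : ℝ, 5 * (1 + (r - t) ^ 2)⁻¹ = 5 * Real.pi := by
      rw [integral_const_mul]
      have := integral_sub_right_eq_self (fun r : ℝ => (1 + r ^ 2)⁻¹) t (μ := volume)
      rw [this, integral_univ_inv_one_add_sq]
    linarith
  have h8 : ∫ _ in U, C * δ = C * δ * (volume U).toReal := by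
    rw [setIntegral_const, smul_eq_mul, mul_comm]
    rfl
  rw [h8]
  linarith

theorem st_HM1 (hSM : ST_SM) (hDUAL : ST_DUAL) : ST_HM1 := by
  obtain ⟨c, hc, C, hC, hK⟩ := hSM 3 (by norm_num)
  refine ⟨c, hc, 4 * (5 * Real.pi + C) + 64, by positivity, fun M b U hM hb hMU hU => ?_⟩
  have hM0 : 0 < M := by linarith
  obtain ⟨hUf, hUv⟩ := hm1_vol (sq_nonneg M) hU
  have hv0 : 0 ≤ (volume U).toReal := ENNReal.toReal_nonneg
  have hMc : 0 < M ^ (-c) := Real.rpow_pos_of_pos hM0 _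
  by_cases hM2 : M < 2
  · have h1 : ∫ t in U, ‖DP (IocN M (2 * M)) b t‖ ^ 2 ≤ ∫ _ in U, (4 : ℝ) := by
      refine integral_mono_of_nonneg (Filter.Eventually.of_forall fun r => by positivity)
        (integrableOn_const hUf.ne) (Filter.Eventually.of_forall fun t => ?_)
      have := hm1_triv hM hb t
      have h0 := norm_nonneg (DP (IocN M (2 * M)) b t)
      show ‖DP (IocN M (2 * M)) b t‖ ^ 2 ≤ 4
      nlinarith
    have h2 : ∫ _ in U, (4 : ℝ) = 4 * (volume U).toReal := by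
      rw [setIntegral_const, smul_eq_mul, mul_comm]
      rfl
    have h3 : (volume U).toReal ≤ 8 := by nlinarith
    have h4 : 0 ≤ (volume U).toReal * M ^ (-c) := by positivity
    have h5 : 0 < 4 * (5 * Real.pi + C) := by positivity
    nlinarith
  · push Not at hM2
    set s : Finset ℕ := Icc 1 ⌊Real.exp 4 * M⌋₊ with hs
    set w : ℕ → ℝ := fun n => tri (Real.log (n / M)) / n with hw
    classical
    set a : ℕ → ℂ := fun n => if n ∈ IocN M (2 * M) then b n / n else 0 with ha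
    have hsub : IocN M (2 * M) ⊆ s := by
      intro n hn
      obtain ⟨_, h2, h3⟩ := hm1_tri hM hn
      rw [hs, Finset.mem_Icc]
      refine ⟨?_, ?_⟩
      · have : (1 : ℝ) ≤ n := by linarith
        exact_mod_cast this
      · refine Nat.le_floor ?_
        have : (2 : ℝ) ≤ Real.exp 4 := by
          have := Real.add_one_le_exp (4 : ℝ)
          linarith
        nlinarith
    have hDP : ∀ t, DP (IocN M (2 * M)) b t = ∑ n ∈ s, a n * nit n t := by
      intro t
      unfold DP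
      rw [← Finset.sum_subset hsub]
      · refine Finset.sum_congr rfl fun n hn => ?_
        simp only [ha, hn, if_true]
      · intro n _ hn
        simp only [ha, hn, if_false, zero_mul]
    have hw0 : ∀ n ∈ s, 0 ≤ w n := fun n _ =>
      div_nonneg (le_max_left _ _) (Nat.cast_nonneg n)
    have hwpos : ∀ n ∈ IocN M (2 * M), 1 / (2 * n) ≤ w n ∧ (0 : ℝ) < n := by
      intro n hn
      obtain ⟨h1, h2, _⟩ := hm1_tri hM hn
      have hn0 : (0 : ℝ) < n := by linarith
      refine ⟨?_, hn0⟩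
      show 1 / (2 * (n : ℝ)) ≤ tri (Real.log (n / M)) / n
      rw [← div_div]
      exact div_le_div_of_nonneg_right h1 hn0.le
    have hwa : ∀ n ∈ s, w n = 0 → a n = 0 := by
      intro n _ h0
      by_cases hn : n ∈ IocN M (2 * M)
      · obtain ⟨h1, h2⟩ := hwpos n hn
        have : 0 < 1 / (2 * (n : ℝ)) := by positivity
        linarith
      · simp only [ha, hn, if_false]
    have hB : ∀ t ∈ U, ∫ r in U, ‖∑ n ∈ s, (w n : ℂ) * nit n (t - r)‖ ≤
        5 * Real.pi + C * M ^ (-c) * (volume U).toReal := by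
      intro t ht
      have hk : ∀ r, ∑ n ∈ s, (w n : ℂ) * nit n (t - r) = Ksum M (r - t) := by
        intro r
        unfold Ksum
        refine Finset.sum_congr rfl fun n _ => ?_
        rw [hm1_nit]
      simp only [hk]
      refine hm1_kernel hUf hMU t fun r hr => hK M (r - t) hM ?_
      have h1 := hU ht
      have h2 := hU hr
      rw [Set.mem_Icc] at h1 h2
      have h3 : M ^ (3 : ℝ) = M ^ 3 := by
        rw [show (3 : ℝ) = ((3 : ℕ) : ℝ) by norm_num, Real.rpow_natCast]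
      rw [h3, abs_le]
      have h4 : 2 * M ^ 2 ≤ M ^ 3 := by nlinarith [sq_nonneg M]
      constructor <;> linarith [h1.1, h1.2, h2.1, h2.2]
    have hmain := hDUAL s w a U (M ^ 2) (5 * Real.pi + C * M ^ (-c) * (volume U).toReal)
      (by positivity) hw0 hwa hMU hU hB
    have hsum : ∑ n ∈ s, ‖a n‖ ^ 2 / w n ≤ 4 := by
      have h1 : ∑ n ∈ s, ‖a n‖ ^ 2 / w n = ∑ n ∈ IocN M (2 * M), ‖a n‖ ^ 2 / w n := by
        symm
        refine Finset.sum_subset hsub fun n _ hn => ?_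
        simp only [ha, hn, if_false, norm_zero]
        rw [zero_pow two_ne_zero, zero_div]
      rw [h1]
      have h2 : ∀ n ∈ IocN M (2 * M), ‖a n‖ ^ 2 / w n ≤ 2 / M := by
        intro n hn
        obtain ⟨h3, h4⟩ := hwpos n hn
        obtain ⟨_, h5, _⟩ := hm1_tri hM hn
        have hwn : 0 < w n := lt_of_lt_of_le (by positivity) h3
        have h6 : ‖a n‖ ≤ 1 / n := by
          simp only [ha, hn, if_true]
          rw [norm_div, Complex.norm_natCast]
          exact div_le_div_of_nonneg_right (hb n) h4.le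
        have h7 : ‖a n‖ ^ 2 ≤ (1 / n) ^ 2 := pow_le_pow_left₀ (norm_nonneg _) h6 2
        rw [div_le_div_iff₀ hwn hM0]
        have h8 : (1 / (n : ℝ)) ^ 2 * M ≤ 2 * (1 / (2 * n)) := by
          have h9 : (1 / (n : ℝ)) ^ 2 * M = (1 / n) * (M / n) := by ring
          have h10 : 2 * (1 / (2 * (n : ℝ))) = 1 / n := by field_simp
          rw [h9, h10]
          have h11 : M / n ≤ 1 := by rw [div_le_one h4]; exact h5
          have h12 : 0 < 1 / (n : ℝ) := by positivity
          nlinarith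
        calc ‖a n‖ ^ 2 * M ≤ (1 / n) ^ 2 * M := mul_le_mul_of_nonneg_right h7 hM0.le
          _ ≤ 2 * (1 / (2 * n)) := h8
          _ ≤ 2 * w n := by linarith
      refine le_trans (Finset.sum_le_sum h2) ?_
      rw [Finset.sum_const, nsmul_eq_mul]
      have h3 := hm1_card hM
      calc ((IocN M (2 * M)).card : ℝ) * (2 / M) ≤ 2 * M * (2 / M) :=
            mul_le_mul_of_nonneg_right h3 (by positivity)
        _ = 4 := by field_simp; norm_num
    have hfin : ∫ t in U, ‖DP (IocN M (2 * M)) b t‖ ^ 2 =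
        ∫ t in U, ‖∑ n ∈ s, a n * nit n t‖ ^ 2 := by simp only [hDP]
    rw [hfin]
    have hBpos : 0 ≤ 5 * Real.pi + C * M ^ (-c) * (volume U).toReal := by positivity
    have hx : 0 ≤ (volume U).toReal * M ^ (-c) := by positivity
    have h1 : (∑ n ∈ s, ‖a n‖ ^ 2 / w n) * (5 * Real.pi + C * M ^ (-c) * (volume U).toReal) ≤
        4 * (5 * Real.pi + C * M ^ (-c) * (volume U).toReal) :=
      mul_le_mul_of_nonneg_right hsum hBpos
    refine le_trans hmain (le_trans h1 ?_)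
    have hpi := Real.pi_pos
    nlinarith [mul_nonneg hpi.le hx, mul_nonneg hC.le hx]

end Pool.Agent.Helper40.MR
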